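import Pool.Agent.Helper83_CNED.Stmt

/-!
CNED: Tonelli for lines and swapping a coordinate with a parameter; integrals along the sides of
translated rectangles.
-/

open MeasureTheory Set Topology Filter

open scoped ENNReal

noncomputable section

namespace Pool.Agent.Helper83_CNED.H47

open Pool.Agent.Helper83_CNED

/-- insertion of the coordinate `t` in the place `i` -/
def ins (i : Fin 3) (t : ℝ) (y : Fin 2 → ℝ) : Eu 3 := WithLp.toLp 2 (i.insertNth t y)

theorem measurable_ins (i : Fin 3) : Measurable (fun q : ℝ × (Fin 2 → ℝ) => ins i q.1 q.2) := by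
  have h1 : Measurable (fun q : ℝ × (Fin 2 → ℝ) =>
      (MeasurableEquiv.piFinSuccAbove (fun _ : Fin 3 => ℝ) i).symm q) :=
    (MeasurableEquiv.piFinSuccAbove (fun _ : Fin 3 => ℝ) i).symm.measurable
  exact (PiLp.volume_preserving_toLp (Fin 3)).measurable.comp h1

theorem ins_same (i : Fin 3) (t : ℝ) (y : Fin 2 → ℝ) : ins i t y i = t := by
  unfold ins
  simp

theorem line_ins (i : Fin 3) (s t : ℝ) (y : Fin 2 → ℝ) : line (ins i s y) i t = ins i t y := by
  ext j
  rw [line_apply]
  unfold ins
  by_cases h : j = i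
  · subst h
    simp
  · rw [if_neg h]
    obtain ⟨k, rfl⟩ := Fin.exists_succAbove_eq h
    simp

/-- Tonelli -/
theorem fubini (i : Fin 3) (F : Eu 3 → ℝ≥0∞) (hF : Measurable F) :
    ∫⁻ x, F x = ∫⁻ y : Fin 2 → ℝ, ∫⁻ t : ℝ, F (ins i t y) := by
  have h1 : ∫⁻ x, F x = ∫⁻ z : Fin 3 → ℝ, F (WithLp.toLp 2 z) :=
    ((PiLp.volume_preserving_toLp (Fin 3)).lintegral_comp hF).symm
  have hem : MeasurePreserving (MeasurableEquiv.piFinSuccAbove (fun _ : Fin 3 => ℝ) i).symm :=
    (volume_preserving_piFinSuccAbove (fun _ : Fin 3 => ℝ) i).symm _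
  have hF' : Measurable (fun z : Fin 3 → ℝ => F (WithLp.toLp 2 z)) :=
    hF.comp (PiLp.volume_preserving_toLp (Fin 3)).measurable
  have h2 : ∫⁻ z : Fin 3 → ℝ, F (WithLp.toLp 2 z) =
      ∫⁻ q : ℝ × (Fin 2 → ℝ), F (ins i q.1 q.2) :=
    (hem.lintegral_comp hF').symm
  have h3 : Measurable (fun q : ℝ × (Fin 2 → ℝ) => F (ins i q.1 q.2)) :=
    hF.comp (measurable_ins i)
  rw [h1, h2, Measure.volume_eq_prod]
  rw [lintegral_prod_symm _ h3.aemeasurable]

/-- swapping the coordinate `i` with a parameter -/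
theorem swap (i : Fin 3) (Φ : Eu 3 × ℝ → ℝ≥0∞) (hΦ : Measurable Φ) :
    ∫⁻ p, ∫⁻ r, Φ (p, r) = ∫⁻ x, ∫⁻ t, Φ (line x i t, x i) := by
  have hm1 : Measurable (fun p : Eu 3 => ∫⁻ r, Φ (p, r)) := hΦ.lintegral_prod_right'
  have hg : Measurable (fun q : Eu 3 × ℝ => (line q.1 i q.2, q.1 i)) := by
    apply Measurable.prodMk
    · exact (continuous_line i).measurable
    · have h : Continuous (fun q : Eu 3 × ℝ => q.1 i) := by fun_prop
      exact h.measurable
  have hm2 : Measurable (fun x : Eu 3 => ∫⁻ t, Φ (line x i t, x i)) :=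
    (hΦ.comp hg).lintegral_prod_right'
  rw [fubini i _ hm1, fubini i _ hm2]
  apply lintegral_congr
  intro y
  have h1 : ∀ s t : ℝ, Φ (line (ins i s y) i t, ins i s y i) = Φ (ins i t y, s) := by
    intro s t
    rw [line_ins, ins_same]
  simp_rw [h1]
  have hm3 : Measurable (fun q : ℝ × ℝ => Φ (ins i q.1 y, q.2)) := by
    apply hΦ.comp
    apply Measurable.prodMk
    · exact (measurable_ins i).comp (measurable_fst.prodMk measurable_const)
    · exact measurable_snd
  exact lintegral_lintegral_swap (f := fun t s => Φ (ins i t y, s)) hm3.aemeasurable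

/-- the integral along a segment of length `L` starting in `p` -/
def J (G : Eu 3 → ℝ≥0∞) (i : Fin 3) (L : ℝ) (p : Eu 3) : ℝ≥0∞ :=
  ∫⁻ r in Ioo (p i) (p i + L), G (line p i r)

/-- the integrand -/
def T (i : Fin 3) (L : ℝ) : Set (Eu 3 × ℝ) := {q | q.1 i < q.2 ∧ q.2 < q.1 i + L}

theorem measurableSet_T (i : Fin 3) (L : ℝ) : MeasurableSet (T i L) := by
  have h1 : Continuous (fun q : Eu 3 × ℝ => q.1 i) := by fun_prop
  have h2 : IsOpen (T i L) := by
    have h3 := (isOpen_lt h1 continuous_snd).inter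
      (isOpen_lt continuous_snd (h1.add (continuous_const (y := L))))
    exact h3
  exact h2.measurableSet

theorem J_eq (G : Eu 3 → ℝ≥0∞) (i : Fin 3) (L : ℝ) (p : Eu 3) :
    J G i L p = ∫⁻ r, (T i L).indicator (fun q : Eu 3 × ℝ => G (line q.1 i q.2)) (p, r) := by
  unfold J
  rw [← lintegral_indicator measurableSet_Ioo]
  rfl

theorem measurable_Gline {G : Eu 3 → ℝ≥0∞} (hG : Measurable G) (i : Fin 3) :
    Measurable (fun q : Eu 3 × ℝ => G (line q.1 i q.2)) :=
  hG.comp (continuous_line i).measurable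

theorem measurable_J {G : Eu 3 → ℝ≥0∞} (hG : Measurable G) (i : Fin 3) (L : ℝ) :
    Measurable (J G i L) := by
  have h : J G i L = fun p => ∫⁻ r,
      (T i L).indicator (fun q : Eu 3 × ℝ => G (line q.1 i q.2)) (p, r) :=
    funext (J_eq G i L)
  rw [h]
  exact ((measurable_Gline hG i).indicator (measurableSet_T i L)).lintegral_prod_right'

/-- the average of the integrals over the translates of a side -/
theorem int_side {G : Eu 3 → ℝ≥0∞} (hG : Measurable G) (i : Fin 3) (L : ℝ) (c : Eu 3)
    (a b : Fin 3 → ℝ) (h1 : ∀ j, j ≠ i → a j ≤ c j ∧ c j + 1 ≤ b j)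
    (h2 : a i ≤ c i) (h3 : c i + L + 1 ≤ b i) :
    ∫⁻ τ in Q, J G i L (c + τ) ≤ ∫⁻ x in ob a b, G x := by
  have hQ : MeasurableSet Q := measurableSet_ob _ _
  -- translation
  have e1 : ∫⁻ τ in Q, J G i L (c + τ) = ∫⁻ p, Q.indicator 1 (p - c) * J G i L p := by
    rw [← lintegral_indicator hQ]
    rw [← lintegral_add_left_eq_self (fun p => Q.indicator 1 (p - c) * J G i L p) c]
    apply lintegral_congr
    intro τ
    rw [add_sub_cancel_left]
    by_cases h : τ ∈ Q
    · rw [indicator_of_mem h, indicator_of_mem h, Pi.one_apply, one_mul]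
    · rw [indicator_of_notMem h, indicator_of_notMem h, zero_mul]
  have hQm : Measurable (fun p : Eu 3 => Q.indicator (1 : Eu 3 → ℝ≥0∞) (p - c)) :=
    (measurable_one.indicator hQ).comp (measurable_id.sub_const c)
  -- the integrand on the product
  obtain ⟨Φ, hΦd⟩ : ∃ Φ : Eu 3 × ℝ → ℝ≥0∞, Φ = fun q => Q.indicator (1 : Eu 3 → ℝ≥0∞) (q.1 - c) *
      (T i L).indicator (fun q : Eu 3 × ℝ => G (line q.1 i q.2)) q := ⟨_, rfl⟩
  have hΦ : Measurable Φ := by
    rw [hΦd]
    exact (hQm.comp measurable_fst).mul ((measurable_Gline hG i).indicator (measurableSet_T i L))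
  have e2 : ∫⁻ p, Q.indicator 1 (p - c) * J G i L p = ∫⁻ p, ∫⁻ r, Φ (p, r) := by
    apply lintegral_congr
    intro p
    rw [J_eq, hΦd]
    simp only
    rw [lintegral_const_mul]
    exact ((measurable_Gline hG i).indicator (measurableSet_T i L)).comp measurable_prodMk_left
  rw [e1, e2, swap i Φ hΦ]
  -- the bound
  have e3 : ∀ (x : Eu 3) (t : ℝ), Φ (line x i t, x i) ≤
      (ob a b).indicator G x * (Ioo (c i) (c i + 1)).indicator (1 : ℝ → ℝ≥0∞) t := by
    intro x t
    rw [hΦd]
    simp only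
    by_cases hq : line x i t - c ∈ Q
    · by_cases hT : (line x i t, x i) ∈ T i L
      · rw [indicator_of_mem hq, indicator_of_mem hT, Pi.one_apply, one_mul]
        simp only [line_line, line_self]
        have hq' : ∀ j, 0 < (line x i t - c) j ∧ (line x i t - c) j < 1 := hq
        have ht : 0 < t - c i ∧ t - c i < 1 := by
          have := hq' i
          rwa [PiLp.sub_apply, line_same] at this
        have hT' : t < x i ∧ x i < t + L := by
          have h := hT
          unfold T at h
          simp only [mem_ofPred_eq, line_same] at h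
          exact h
        have hx : x ∈ ob a b := by
          intro j
          by_cases hj : j = i
          · subst hj
            constructor
            · linarith [hT'.1, ht.1]
            · linarith [hT'.2, ht.2]
          · have h4 := hq' j
            rw [PiLp.sub_apply, line_ne _ hj] at h4
            have h5 := h1 j hj
            constructor
            · linarith [h4.1]
            · linarith [h4.2]
        have ht' : t ∈ Ioo (c i) (c i + 1) := ⟨by linarith [ht.1], by linarith [ht.2]⟩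
        rw [indicator_of_mem hx, indicator_of_mem ht', Pi.one_apply, mul_one]
      · rw [indicator_of_notMem hT, mul_zero]
        exact zero_le
    · rw [indicator_of_notMem hq, zero_mul]
      exact zero_le
  calc ∫⁻ x, ∫⁻ t, Φ (line x i t, x i)
      ≤ ∫⁻ x, ∫⁻ t, (ob a b).indicator G x *
          (Ioo (c i) (c i + 1)).indicator (1 : ℝ → ℝ≥0∞) t :=
        lintegral_mono fun x => lintegral_mono fun t => e3 x t
    _ = ∫⁻ x, (ob a b).indicator G x := by
        apply lintegral_congr
        intro x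
        rw [lintegral_const_mul _ (measurable_one.indicator measurableSet_Ioo),
          lintegral_indicator_one measurableSet_Ioo, Real.volume_Ioo, add_sub_cancel_left,
          ENNReal.ofReal_one, mul_one]
    _ = ∫⁻ x in ob a b, G x := lintegral_indicator (measurableSet_ob a b) G

/-- the upper gradient inequality on a translated side -/
theorem side_ae {h : Eu 3 → Eu 3} {G : Eu 3 → ℝ≥0∞} (i : Fin 3) (L : ℝ) (c : Eu 3)
    (a b : Fin 3 → ℝ) (hug : UG h G i a b) (h1 : ∀ j, j ≠ i → a j ≤ c j ∧ c j + 1 ≤ b j)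
    (h2 : a i ≤ c i) (h3 : c i + L + 1 ≤ b i) :
    ∀ᵐ τ : Eu 3, τ ∈ Q → ∀ s t : ℝ, s ∈ Icc (c i + τ i) (c i + τ i + L) →
      t ∈ Icc (c i + τ i) (c i + τ i + L) →
      edist (h (line (c + τ) i s)) (h (line (c + τ) i t)) ≤ J G i L (c + τ) := by
  have hqm : Measure.QuasiMeasurePreserving (fun τ : Eu 3 => c + τ) :=
    (measurePreserving_add_left (volume : Measure (Eu 3)) c).quasiMeasurePreserving
  have h4 := hqm.ae hug
  filter_upwards [h4] with τ hτ hQ
  have hQ' : ∀ j, 0 < τ j ∧ τ j < 1 := hQ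
  have h5 : ∀ j, j ≠ i → a j < (c + τ) j ∧ (c + τ) j < b j := by
    intro j hj
    rw [PiLp.add_apply]
    have := h1 j hj
    have := hQ' j
    constructor <;> linarith
  have h6 := hτ h5
  have key : ∀ s t : ℝ, s ∈ Icc (c i + τ i) (c i + τ i + L) →
      t ∈ Icc (c i + τ i) (c i + τ i + L) → s ≤ t →
      edist (h (line (c + τ) i s)) (h (line (c + τ) i t)) ≤ J G i L (c + τ) := by
    intro s t hs ht hst
    have hi := hQ' i
    refine (h6 s t (by linarith [hs.1]) hst (by linarith [ht.2])).trans ?_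
    unfold J
    apply lintegral_mono_set
    intro r hr
    rw [PiLp.add_apply]
    exact ⟨lt_of_le_of_lt hs.1 hr.1, lt_of_lt_of_le hr.2 ht.2⟩
  intro s t hs ht
  rcases le_total s t with hst | hst
  · exact key s t hs ht hst
  · rw [edist_comm]
    exact key t s ht hs hst

end Pool.Agent.Helper83_CNED.H47
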