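import Pool.Agent.Helper47_CNED.Fub

/-!
CNED: modules LOOPA and LOOPB: the average diameter of the images of the translated loops.
-/

open MeasureTheory Set Topology Filter

open scoped ENNReal

noncomputable section

namespace Pool.Agent.Helper83_CNED.H47

open Pool.Agent.Helper83_CNED

/-- a side of a loop: the segment of length `L` in the direction `i` starting in `p` -/
def seg (i : Fin 3) (L : ℝ) (p : Eu 3) : Set (Eu 3) :=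
  (fun s => line p i s) '' Icc (p i) (p i + L)

/-- the point with the given integer coordinates -/
def ip (c : Fin 3 → ℤ) : Eu 3 := WithLp.toLp 2 (fun j => (c j : ℝ))

theorem ip_apply (c : Fin 3 → ℤ) (j : Fin 3) : ip c j = (c j : ℝ) := rfl

theorem mem_seg {i : Fin 3} {L : ℝ} {p x : Eu 3} (h1 : ∀ j, j ≠ i → x j = p j)
    (h2 : p i ≤ x i) (h3 : x i ≤ p i + L) : x ∈ seg i L p := by
  refine ⟨x i, ⟨h2, h3⟩, ?_⟩
  ext j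
  change line p i (x i) j = x j
  rw [line_apply]
  split_ifs with hj
  · rw [hj]
  · exact (h1 j hj).symm

/-- the estimates for one side -/
theorem side {h : Eu 3 → Eu 3} {G : Eu 3 → ℝ≥0∞} (hG : Measurable G)
    (hug : ∀ k j, UG h G j (fun l => sbL k l) (fun l => sbU k l)) (k : Fin 8) (i : Fin 3)
    (c : Fin 3 → ℤ) (L : ℤ) (h1 : ∀ j, j ≠ i → sbL k j ≤ c j ∧ c j + 1 ≤ sbU k j)
    (h2 : sbL k i ≤ c i) (h3 : c i + L + 1 ≤ sbU k i) :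
    (∀ᵐ τ : Eu 3, τ ∈ Q → Metric.ediam (h '' seg i L (ip c + τ)) ≤ J G i L (ip c + τ)) ∧
      ∫⁻ τ in Q, J G i L (ip c + τ) ≤ ∫⁻ x in WW, G x := by
  have h1' : ∀ j, j ≠ i → (fun l => (sbL k l : ℝ)) j ≤ ip c j ∧
      ip c j + 1 ≤ (fun l => (sbU k l : ℝ)) j := by
    intro j hj
    obtain ⟨h4, h5⟩ := h1 j hj
    rw [ip_apply]
    change (sbL k j : ℝ) ≤ c j ∧ (c j : ℝ) + 1 ≤ sbU k j
    constructor
    · exact_mod_cast h4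
    · exact_mod_cast h5
  have h2' : (fun l => (sbL k l : ℝ)) i ≤ ip c i := by
    rw [ip_apply]
    change (sbL k i : ℝ) ≤ c i
    exact_mod_cast h2
  have h3' : ip c i + (L : ℝ) + 1 ≤ (fun l => (sbU k l : ℝ)) i := by
    rw [ip_apply]
    change (c i : ℝ) + L + 1 ≤ sbU k i
    exact_mod_cast h3
  constructor
  · filter_upwards [side_ae i (L : ℝ) (ip c) _ _ (hug k i) h1' h2' h3'] with τ hτ hQ
    apply Metric.ediam_le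
    rintro _ ⟨_, ⟨s, hs, rfl⟩, rfl⟩ _ ⟨_, ⟨t, ht, rfl⟩, rfl⟩
    exact hτ hQ s t hs ht
  · refine (int_side hG i (L : ℝ) (ip c) _ _ h1' h2' h3').trans ?_
    apply lintegral_mono_set
    exact subset_iUnion (fun k => sb k) k

/-- the diameter of a union of four sets -/
theorem ediam4 {h : Eu 3 → Eu 3} {A S₁ S₂ S₃ S₄ : Set (Eu 3)} {d₁ d₂ d₃ d₄ : ℝ≥0∞}
    (hA : A ⊆ S₁ ∪ S₂ ∪ S₃ ∪ S₄) (h12 : (S₁ ∩ S₂).Nonempty) (h23 : (S₂ ∩ S₃).Nonempty)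
    (h34 : (S₃ ∩ S₄).Nonempty) (h1 : Metric.ediam (h '' S₁) ≤ d₁)
    (h2 : Metric.ediam (h '' S₂) ≤ d₂) (h3 : Metric.ediam (h '' S₃) ≤ d₃)
    (h4 : Metric.ediam (h '' S₄) ≤ d₄) : Metric.ediam (h '' A) ≤ d₁ + d₂ + d₃ + d₄ := by
  have e0 : h '' A ⊆ h '' S₁ ∪ h '' S₂ ∪ h '' S₃ ∪ h '' S₄ := by
    rw [← image_union, ← image_union, ← image_union]
    exact image_mono hA
  refine (Metric.ediam_mono e0).trans ?_
  have e1 : (h '' S₁ ∩ h '' S₂).Nonempty := by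
    obtain ⟨x, hx1, hx2⟩ := h12
    exact ⟨h x, mem_image_of_mem h hx1, mem_image_of_mem h hx2⟩
  have e2 : ((h '' S₁ ∪ h '' S₂) ∩ h '' S₃).Nonempty := by
    obtain ⟨x, hx1, hx2⟩ := h23
    exact ⟨h x, Or.inr (mem_image_of_mem h hx1), mem_image_of_mem h hx2⟩
  have e3 : ((h '' S₁ ∪ h '' S₂ ∪ h '' S₃) ∩ h '' S₄).Nonempty := by
    obtain ⟨x, hx1, hx2⟩ := h34
    exact ⟨h x, Or.inr (mem_image_of_mem h hx1), mem_image_of_mem h hx2⟩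
  refine (Metric.ediam_union_le e3).trans ?_
  refine add_le_add ((Metric.ediam_union_le e2).trans ?_) h4
  exact add_le_add ((Metric.ediam_union_le e1).trans (add_le_add h1 h2)) h3

theorem measurable_side {G : Eu 3 → ℝ≥0∞} (hG : Measurable G) (i : Fin 3) (L : ℝ) (c : Eu 3) :
    Measurable (fun τ => J G i L (c + τ)) :=
  (measurable_J hG i L).comp (measurable_const_add c)

theorem loop4 {h : Eu 3 → Eu 3} {G : Eu 3 → ℝ≥0∞} (hG : Measurable G)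
    (loop : Eu 3 → Set (Eu 3)) (i₁ i₂ i₃ i₄ : Fin 3) (L₁ L₂ L₃ L₄ : ℝ) (c₁ c₂ c₃ c₄ : Eu 3)
    (hs1 : (∀ᵐ τ : Eu 3, τ ∈ Q → Metric.ediam (h '' seg i₁ L₁ (c₁ + τ)) ≤ J G i₁ L₁ (c₁ + τ)) ∧
      ∫⁻ τ in Q, J G i₁ L₁ (c₁ + τ) ≤ ∫⁻ x in WW, G x)
    (hs2 : (∀ᵐ τ : Eu 3, τ ∈ Q → Metric.ediam (h '' seg i₂ L₂ (c₂ + τ)) ≤ J G i₂ L₂ (c₂ + τ)) ∧
      ∫⁻ τ in Q, J G i₂ L₂ (c₂ + τ) ≤ ∫⁻ x in WW, G x)
    (hs3 : (∀ᵐ τ : Eu 3, τ ∈ Q → Metric.ediam (h '' seg i₃ L₃ (c₃ + τ)) ≤ J G i₃ L₃ (c₃ + τ)) ∧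
      ∫⁻ τ in Q, J G i₃ L₃ (c₃ + τ) ≤ ∫⁻ x in WW, G x)
    (hs4 : (∀ᵐ τ : Eu 3, τ ∈ Q → Metric.ediam (h '' seg i₄ L₄ (c₄ + τ)) ≤ J G i₄ L₄ (c₄ + τ)) ∧
      ∫⁻ τ in Q, J G i₄ L₄ (c₄ + τ) ≤ ∫⁻ x in WW, G x)
    (hsub : ∀ τ, loop τ ⊆ seg i₁ L₁ (c₁ + τ) ∪ seg i₂ L₂ (c₂ + τ) ∪ seg i₃ L₃ (c₃ + τ) ∪
      seg i₄ L₄ (c₄ + τ))
    (h12 : ∀ τ, (seg i₁ L₁ (c₁ + τ) ∩ seg i₂ L₂ (c₂ + τ)).Nonempty)
    (h23 : ∀ τ, (seg i₂ L₂ (c₂ + τ) ∩ seg i₃ L₃ (c₃ + τ)).Nonempty)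
    (h34 : ∀ τ, (seg i₃ L₃ (c₃ + τ) ∩ seg i₄ L₄ (c₄ + τ)).Nonempty) :
    ∃ ℓ : Eu 3 → ℝ≥0∞, Measurable ℓ ∧ (∀ᵐ τ : Eu 3, τ ∈ Q → Metric.ediam (h '' loop τ) ≤ ℓ τ) ∧
      ∫⁻ τ in Q, ℓ τ ≤ 20 * ∫⁻ x in WW, G x := by
  have m1 := measurable_side hG i₁ L₁ c₁
  have m2 := measurable_side hG i₂ L₂ c₂
  have m3 := measurable_side hG i₃ L₃ c₃
  have m4 := measurable_side hG i₄ L₄ c₄
  refine ⟨fun τ => J G i₁ L₁ (c₁ + τ) + J G i₂ L₂ (c₂ + τ) + J G i₃ L₃ (c₃ + τ) +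
    J G i₄ L₄ (c₄ + τ), ((m1.add m2).add m3).add m4, ?_, ?_⟩
  · filter_upwards [hs1.1, hs2.1, hs3.1, hs4.1] with τ t1 t2 t3 t4 hQ
    exact ediam4 (hsub τ) (h12 τ) (h23 τ) (h34 τ) (t1 hQ) (t2 hQ) (t3 hQ) (t4 hQ)
  · rw [lintegral_add_right _ m4, lintegral_add_right _ m3, lintegral_add_right _ m2]
    calc _ ≤ (∫⁻ x in WW, G x) + (∫⁻ x in WW, G x) + (∫⁻ x in WW, G x) + ∫⁻ x in WW, G x :=
          add_le_add (add_le_add (add_le_add hs1.2 hs2.2) hs3.2) hs4.2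
      _ = 4 * ∫⁻ x in WW, G x := by ring
      _ ≤ 20 * ∫⁻ x in WW, G x := by
          gcongr
          norm_num

theorem mem_seg0 {L : ℝ} {p x : Eu 3} (h1 : x 1 = p 1) (h2 : x 2 = p 2)
    (h3 : p 0 ≤ x 0) (h4 : x 0 ≤ p 0 + L) : x ∈ seg 0 L p := by
  refine mem_seg ?_ h3 h4
  intro j hj
  fin_cases j
  · exact absurd rfl hj
  · exact h1
  · exact h2

theorem mem_seg1 {L : ℝ} {p x : Eu 3} (h1 : x 0 = p 0) (h2 : x 2 = p 2)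
    (h3 : p 1 ≤ x 1) (h4 : x 1 ≤ p 1 + L) : x ∈ seg 1 L p := by
  refine mem_seg ?_ h3 h4
  intro j hj
  fin_cases j
  · exact h1
  · exact absurd rfl hj
  · exact h2

theorem mem_seg2 {L : ℝ} {p x : Eu 3} (h1 : x 0 = p 0) (h2 : x 1 = p 1)
    (h3 : p 2 ≤ x 2) (h4 : x 2 ≤ p 2 + L) : x ∈ seg 2 L p := by
  refine mem_seg ?_ h3 h4
  intro j hj
  fin_cases j
  · exact h1
  · exact h2
  · exact absurd rfl hj

theorem ip0 (a b c : ℤ) (τ : Eu 3) : (ip ![a, b, c] + τ) 0 = a + τ 0 := rfl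

theorem ip1 (a b c : ℤ) (τ : Eu 3) : (ip ![a, b, c] + τ) 1 = b + τ 1 := rfl

theorem ip2 (a b c : ℤ) (τ : Eu 3) : (ip ![a, b, c] + τ) 2 = c + τ 2 := rfl

/-- LOOPA -/
theorem loopA : LoopAStmt := by
  intro h G _ hG hug
  have s1 := side hG hug 2 0 ![-1, 1, 3] 5 (by decide) (by decide) (by decide)
  have s2 := side hG hug 3 1 ![4, 1, 3] 4 (by decide) (by decide) (by decide)
  have s3 := side hG hug 4 0 ![-1, 5, 3] 5 (by decide) (by decide) (by decide)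
  have s4 := side hG hug 0 1 ![-1, 1, 3] 4 (by decide) (by decide) (by decide)
  refine loop4 hG Pool.Agent.Helper83_CNED.loopA _ _ _ _ _ _ _ _ _ _ _ _ s1 s2 s3 s4 ?_ ?_ ?_ ?_
  · intro τ x hx
    obtain ⟨hx2, ⟨hx0, hx0'⟩, ⟨hx1, hx1'⟩, hx4⟩ := hx
    rcases hx4 with e | e | e | e
    · refine Or.inr (mem_seg1 ?_ ?_ ?_ ?_) <;> simp only [ip0, ip1, ip2] <;> push_cast <;> linarith
    · refine Or.inl (Or.inl (Or.inr (mem_seg1 ?_ ?_ ?_ ?_))) <;> simp only [ip0, ip1, ip2] <;>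
        push_cast <;> linarith
    · refine Or.inl (Or.inl (Or.inl (mem_seg0 ?_ ?_ ?_ ?_))) <;> simp only [ip0, ip1, ip2] <;>
        push_cast <;> linarith
    · refine Or.inl (Or.inr (mem_seg0 ?_ ?_ ?_ ?_)) <;> simp only [ip0, ip1, ip2] <;>
        push_cast <;> linarith
  · intro τ
    refine ⟨ip ![4, 1, 3] + τ, mem_seg0 ?_ ?_ ?_ ?_, mem_seg1 ?_ ?_ ?_ ?_⟩ <;>
      simp only [ip0, ip1, ip2] <;> push_cast <;> linarith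
  · intro τ
    refine ⟨ip ![4, 5, 3] + τ, mem_seg1 ?_ ?_ ?_ ?_, mem_seg0 ?_ ?_ ?_ ?_⟩ <;>
      simp only [ip0, ip1, ip2] <;> push_cast <;> linarith
  · intro τ
    refine ⟨ip ![-1, 5, 3] + τ, mem_seg0 ?_ ?_ ?_ ?_, mem_seg1 ?_ ?_ ?_ ?_⟩ <;>
      simp only [ip0, ip1, ip2] <;> push_cast <;> linarith

/-- LOOPB -/
theorem loopB : LoopBStmt := by
  intro h G _ hG hug
  have s1 := side hG hug 5 0 ![2, 3, 1] 4 (by decide) (by decide) (by decide)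
  have s2 := side hG hug 1 2 ![6, 3, 1] 4 (by decide) (by decide) (by decide)
  have s3 := side hG hug 7 0 ![2, 3, 5] 4 (by decide) (by decide) (by decide)
  have s4 := side hG hug 6 2 ![2, 3, 1] 4 (by decide) (by decide) (by decide)
  refine loop4 hG Pool.Agent.Helper83_CNED.loopB _ _ _ _ _ _ _ _ _ _ _ _ s1 s2 s3 s4 ?_ ?_ ?_ ?_
  · intro τ x hx
    obtain ⟨hx1, ⟨hx0, hx0'⟩, ⟨hx2, hx2'⟩, hx4⟩ := hx
    rcases hx4 with e | e | e | e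
    · refine Or.inr (mem_seg2 ?_ ?_ ?_ ?_) <;> simp only [ip0, ip1, ip2] <;> push_cast <;> linarith
    · refine Or.inl (Or.inl (Or.inr (mem_seg2 ?_ ?_ ?_ ?_))) <;> simp only [ip0, ip1, ip2] <;>
        push_cast <;> linarith
    · refine Or.inl (Or.inl (Or.inl (mem_seg0 ?_ ?_ ?_ ?_))) <;> simp only [ip0, ip1, ip2] <;>
        push_cast <;> linarith
    · refine Or.inl (Or.inr (mem_seg0 ?_ ?_ ?_ ?_)) <;> simp only [ip0, ip1, ip2] <;>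
        push_cast <;> linarith
  · intro τ
    refine ⟨ip ![6, 3, 1] + τ, mem_seg0 ?_ ?_ ?_ ?_, mem_seg2 ?_ ?_ ?_ ?_⟩ <;>
      simp only [ip0, ip1, ip2] <;> push_cast <;> linarith
  · intro τ
    refine ⟨ip ![6, 3, 5] + τ, mem_seg2 ?_ ?_ ?_ ?_, mem_seg0 ?_ ?_ ?_ ?_⟩ <;>
      simp only [ip0, ip1, ip2] <;> push_cast <;> linarith
  · intro τ
    refine ⟨ip ![2, 3, 5] + τ, mem_seg0 ?_ ?_ ?_ ?_, mem_seg2 ?_ ?_ ?_ ?_⟩ <;>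
      simp only [ip0, ip1, ip2] <;> push_cast <;> linarith

end Pool.Agent.Helper83_CNED.H47
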